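import Pool.Agent.Y742.HC.Stm0

/-! Project HC: a specialization of the same dimension has the same ideal. -/

set_option autoImplicit false
set_option linter.all false

namespace Pool.Agent.Y427.HC

open MvPolynomial Pool.Agent.Y742.HC

theorem sEq : SEq := by
  intro k E E' _ _ _ _ _ N c c' h S hS hmax g hg
  classical
  by_contra hne
  -- `c'` is independent on `S`
  have hS' : AlgebraicIndepOn k c' S := by
    rw [AlgebraicIndepOn, algebraicIndependent_iff] at hS ⊢
    intro p hp
    apply hS p
    have h1 := h (rename Subtype.val p)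
    rw [aeval_rename, aeval_rename] at h1
    exact h1 hp
  have halg : ∀ l, IsAlgebraic (Algebra.adjoin k (c' '' S)) (c' l) := by
    intro l
    by_contra h1
    have hl : l ∉ S := by
      intro hl
      exact h1 (isAlgebraic_algebraMap (⟨c' l, Algebra.subset_adjoin ⟨l, hl, rfl⟩⟩ :
        Algebra.adjoin k (c' '' S)))
    have h2 := hmax _ (hS'.insert h1)
    rw [Set.ncard_insert_of_notMem hl] at h2
    omega
  have halg2 : ∀ P : MvPolynomial (Fin N) k, IsAlgebraic (Algebra.adjoin k (c' '' S)) (aeval c' P) := by
    intro P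
    induction P using MvPolynomial.induction_on with
    | C a =>
      rw [aeval_C]
      have : algebraMap k E' a = algebraMap (Algebra.adjoin k (c' '' S)) E'
        (algebraMap k (Algebra.adjoin k (c' '' S)) a) := rfl
      rw [this]
      exact isAlgebraic_algebraMap _
    | add p q hp hq =>
      rw [map_add]
      exact hp.add hq
    | mul_X p i hp =>
      rw [map_mul, aeval_X]
      exact hp.mul (halg i)
  obtain ⟨t, ht, r, hr, he⟩ := (halg2 g).exists_nonzero_eq_adjoin_mul
    (mem_nonZeroDivisors_of_ne_zero hne)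
  -- lift `t`
  have hA : Algebra.adjoin k (c' '' S) ≤ (aeval c' : MvPolynomial (Fin N) k →ₐ[k] E').range := by
    rw [Algebra.adjoin_le_iff]
    rintro _ ⟨l, -, rfl⟩
    exact ⟨X l, aeval_X _ _⟩
  have ht' : t ∈ (aeval c' : MvPolynomial (Fin N) k →ₐ[k] E').range := by
    refine Algebra.adjoin_induction (p := fun z _ =>
      z ∈ (aeval c' : MvPolynomial (Fin N) k →ₐ[k] E').range) ?_ ?_ ?_ ?_ ht
    · rintro z hz
      rw [Set.mem_singleton_iff] at hz
      rw [hz]
      exact ⟨g, rfl⟩
    · intro a
      exact hA a.2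
    · intro a b _ _ ha hb
      exact add_mem ha hb
    · intro a b _ _ ha hb
      exact mul_mem ha hb
  obtain ⟨Q, hQ⟩ := ht'
  have hr' : (r : E') ∈ (aeval (fun i : S => c' i) : MvPolynomial S k →ₐ[k] E').range := by
    rw [← Algebra.adjoin_range_eq_range_aeval]
    have e1 : c' '' S = Set.range (fun i : S => c' i) := Set.image_eq_range _ _
    rw [← e1]
    exact r.2
  obtain ⟨P, hP⟩ := hr'
  have h3 : aeval c' (g * Q - rename Subtype.val P) = 0 := by
    rw [map_sub, map_mul, aeval_rename]
    have h4 : aeval c' Q = t := hQ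
    have h5 : aeval (c' ∘ Subtype.val) P = (r : E') := hP
    rw [h4, h5, he]
    exact sub_self _
  have h6 := h _ h3
  rw [map_sub, map_mul, hg, zero_mul, zero_sub, neg_eq_zero, aeval_rename] at h6
  rw [AlgebraicIndepOn, algebraicIndependent_iff] at hS
  have h7 := hS P h6
  rw [h7] at hP
  apply hr
  have h8 : (r : E') = 0 := by
    rw [← hP]
    exact map_zero _
  exact Subtype.ext h8

end Pool.Agent.Y427.HC
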